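import Pool.Agent.H9.Lap.Targets

/-!
Modules EDG, CSC, HUB, HIG, SEP, CNT for MP_c4ad93_co (board lp_modules of helper9).
-/

namespace Pool.Agent.H4.Lap

open Finset Classical Pool.Agent.H9.Lap

section

variable {V : Type} [Fintype V]

theorem mem_S0 {F : SimpleGraph V} {f : V → ℝ} {t : ℕ} {s : V} :
    s ∈ S0 F f t ↔ 0 < f s ∧ ed F f s = t := by simp [S0]

theorem mem_Cs {F : SimpleGraph V} {f : V → ℝ} {s w : V} :
    w ∈ Cs F f s ↔ F.Adj s w ∧ f w ≤ 0 := by simp [Cs, mem_nb, mem_Npos]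

theorem mem_Cst {F : SimpleGraph V} {f : V → ℝ} {t : ℕ} {w : V} :
    w ∈ Cst F f t ↔ ∃ s ∈ S0 F f t, w ∈ Cs F f s := by simp [Cst]

/-- the part of the sum over nonpositive neighbours -/
theorem le_sum_of_Cs {F : SimpleGraph V} {f : V → ℝ} {v : V} {T : Finset V}
    (hT : Cs F f v ⊆ T) (hp : ∀ w ∈ T, f w ≤ f v) :
    (ed F f v : ℝ) * f v ≤ ∑ w ∈ T, (f v - f w) := by
  have h1 : (ed F f v : ℝ) * f v = ∑ w ∈ Cs F f v, f v := by
    rw [Finset.sum_const, nsmul_eq_mul]; rfl
  rw [h1]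
  calc ∑ w ∈ Cs F f v, f v ≤ ∑ w ∈ Cs F f v, (f v - f w) := by
        refine Finset.sum_le_sum fun w hw => ?_
        have := (mem_Cs.1 hw).2
        linarith
    _ ≤ ∑ w ∈ T, (f v - f w) := by
        refine Finset.sum_le_sum_of_subset_of_nonneg hT fun w hw _ => ?_
        have := hp w hw
        linarith

theorem le_sum_of_Cs' {F : SimpleGraph V} {f : V → ℝ} {v y : V} {T : Finset V}
    (hT : Cs F f v ⊆ T) (hp : ∀ w ∈ T, f w ≤ f v) (hy : y ∈ T) (hy0 : 0 < f y) :
    (ed F f v : ℝ) * f v + (f v - f y) ≤ ∑ w ∈ T, (f v - f w) := by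
  rw [← Finset.add_sum_erase T _ hy]
  have h := le_sum_of_Cs (F := F) (f := f) (v := v) (T := T.erase y) (fun w hw => by
    refine Finset.mem_erase.2 ⟨fun he => ?_, hT hw⟩
    have := (mem_Cs.1 hw).2
    rw [he] at this
    linarith) (fun w hw => hp w (Finset.mem_of_mem_erase hw))
  linarith

theorem key {F : SimpleGraph V} {f : V → ℝ} {t : ℕ} (hcn : CN F (t + 1)) {s r : V}
    (hs : (Cs F f s).card = t) (hr : (Cs F f r).card = t) (hne : Cs F f s ≠ Cs F f r) :
    ∃ u, 0 < f u ∧ F.Adj u s ∧ F.Adj u r := by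
  have hlt : (Cs F f s ∩ Cs F f r).card < t := by
    by_contra hge
    push Not at hge
    have h1 := Finset.eq_of_subset_of_card_le
      (Finset.inter_subset_left : Cs F f s ∩ Cs F f r ⊆ Cs F f s) (by rw [hs]; exact hge)
    have h2 := Finset.eq_of_subset_of_card_le
      (Finset.inter_subset_right : Cs F f s ∩ Cs F f r ⊆ Cs F f r) (by rw [hr]; exact hge)
    exact hne (h1.symm.trans h2)
  obtain ⟨u, hu⟩ := hcn (insert s (insert r (Cs F f s ∩ Cs F f r))) (by
    refine (Finset.card_insert_le _ _).trans ?_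
    have := Finset.card_insert_le r (Cs F f s ∩ Cs F f r)
    omega)
  have h1 : F.Adj u s := hu s (by simp)
  have h2 : F.Adj u r := hu r (by simp)
  refine ⟨u, ?_, h1, h2⟩
  by_contra hle
  push Not at hle
  have h3 : u ∈ Cs F f s ∩ Cs F f r :=
    Finset.mem_inter.2 ⟨mem_Cs.2 ⟨h1.symm, hle⟩, mem_Cs.2 ⟨h2.symm, hle⟩⟩
  have h4 := hu u (by rw [Finset.mem_insert, Finset.mem_insert]; right; right; exact h3)
  exact F.loopless.irrefl u h4

end

theorem edg : T_EDG := by
  intro V _ F f t lam a w0 h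
  have hL : 0 ≤ (lam - t) * Phi f := mul_nonneg h.L0 (Phi_nonneg f)
  have h1 : ∀ s, (lam - t) * Phi f < f s → s ∈ S0 F f t := by
    intro s hs
    have hs0 : 0 < f s := lt_of_le_of_lt hL hs
    rw [mem_S0]
    refine ⟨hs0, ?_⟩
    have hid := idt h.eig
    have hneg : 0 ≤ ∑ w ∈ Npos f, (gd F f w : ℝ) * (- f w) := by
      refine Finset.sum_nonneg fun w hw => mul_nonneg (Nat.cast_nonneg _) ?_
      have := mem_Npos.1 hw
      linarith
    have hsum : ∑ v ∈ Pos f, ((ed F f v : ℝ) - t) * f v ≤ (lam - t) * Phi f := by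
      have : ∑ v ∈ Pos f, ((ed F f v : ℝ) - t) * f v
          = ∑ v ∈ Pos f, (ed F f v : ℝ) * f v - t * Phi f := by
        rw [Phi, Finset.mul_sum, ← Finset.sum_sub_distrib]
        exact Finset.sum_congr rfl fun _ _ => by ring
      rw [this]
      linarith
    have hterm : ((ed F f s : ℝ) - t) * f s ≤ ∑ v ∈ Pos f, ((ed F f v : ℝ) - t) * f v := by
      refine Finset.single_le_sum (f := fun v => ((ed F f v : ℝ) - t) * f v) (fun v hv => ?_)
        (mem_Pos.2 hs0)
      have hv0 := mem_Pos.1 hv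
      have : (t : ℝ) ≤ ed F f v := by exact_mod_cast h.et v hv0
      exact mul_nonneg (by linarith) hv0.le
    have hlt : ((ed F f s : ℝ) - t) * f s < 1 * f s := by linarith
    have hlt2 : ((ed F f s : ℝ) - t) < 1 := lt_of_mul_lt_mul_right hlt hs0.le
    have hle := h.et s hs0
    have h3 : (ed F f s : ℝ) < ((t + 1 : ℕ) : ℝ) := by push_cast; linarith
    have h4 : ed F f s < t + 1 := by exact_mod_cast h3
    omega
  refine ⟨h1, ?_, ?_, ?_⟩
  · intro s s' hs hs' hadj
    by_cases hle : f s ≤ f s'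
    · linarith
    push Not at hle
    set H : Finset V := univ.filter (fun v => f s ≤ f v) with hH
    have hmem : ∀ v, v ∈ H ↔ f s ≤ f v := by simp [hH]
    have hcut := cut h.eig H
    have hsH : s ∈ H := (hmem s).2 le_rfl
    have hT : ∀ v, Cs F f v ⊆ nb F v \ H := by
      intro v w hw
      rw [mem_Cs] at hw
      rw [Finset.mem_sdiff, mem_nb, hmem]
      refine ⟨hw.1, not_le.2 ?_⟩
      linarith [hw.2]
    have hp : ∀ v ∈ H, ∀ w ∈ nb F v \ H, f w ≤ f v := by
      intro v hv w hw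
      rw [Finset.mem_sdiff, hmem] at hw
      have := (hmem v).1 hv
      linarith [not_le.1 hw.2]
    have hb : ∀ v ∈ H, (t : ℝ) * f v ≤ ∑ w ∈ nb F v \ H, (f v - f w) := by
      intro v hv
      refine le_trans ?_ (le_sum_of_Cs (hT v) (hp v hv))
      have hv0 : 0 < f v := lt_of_lt_of_le hs ((hmem v).1 hv)
      have : (t : ℝ) ≤ ed F f v := by exact_mod_cast h.et v hv0
      exact mul_le_mul_of_nonneg_right this hv0.le
    have hbs : (t : ℝ) * f s + (f s - f s') ≤ ∑ w ∈ nb F s \ H, (f s - f w) := by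
      refine le_trans ?_ (le_sum_of_Cs' (y := s') (hT s) (hp s hsH) ?_ hs')
      · have h2 : (t : ℝ) ≤ ed F f s := by exact_mod_cast h.et s hs
        have := mul_le_mul_of_nonneg_right h2 hs.le
        linarith
      · rw [Finset.mem_sdiff, mem_nb, hmem]
        exact ⟨hadj, not_le.2 hle⟩
    have hsumH : (t : ℝ) * ∑ v ∈ H, f v + (f s - f s') ≤ lam * ∑ v ∈ H, f v := by
      rw [hcut, ← Finset.add_sum_erase H f hsH,
        ← Finset.add_sum_erase H (fun v => ∑ w ∈ nb F v \ H, (f v - f w)) hsH, mul_add,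
        Finset.mul_sum]
      have : ∑ i ∈ H.erase s, (t:ℝ) * f i ≤ ∑ i ∈ H.erase s, ∑ w ∈ nb F i \ H, (f i - f w) :=
        Finset.sum_le_sum fun v hv => hb v (Finset.mem_of_mem_erase hv)
      linarith
    have hPhi : ∑ v ∈ H, f v ≤ Phi f := by
      refine Finset.sum_le_sum_of_subset_of_nonneg ?_ ?_
      · intro v hv
        rw [mem_Pos]
        exact lt_of_lt_of_le hs ((hmem v).1 hv)
      · intro v hv _
        exact (mem_Pos.1 hv).le
    have := mul_le_mul_of_nonneg_left hPhi h.L0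
    linarith
  · intro y hy hy0
    have he := h.eig a
    have hle := le_sum_of_Cs' (F := F) (f := f) (v := a) (y := y) (T := nb F a)
      (by intro w hw; rw [mem_nb]; exact (mem_Cs.1 hw).1) (fun w _ => h.amax w)
      (mem_nb.2 hy) hy0
    have h2 : (t : ℝ) ≤ ed F f a := by exact_mod_cast h.et a h.apos
    have := mul_le_mul_of_nonneg_right h2 h.apos.le
    linarith
  · refine h1 a ?_
    have h2 := h.small
    have h3 := h.apos
    linarith

theorem csc (hclq : T_CLQ) : T_CSC := by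
  intro V _ F f t lam a w0 h s hs
  have hs' := mem_S0.1 hs
  have hN : ∀ w, F.Adj w0 w → f w ≤ 0 := by
    intro w hw
    by_contra hlt
    push Not at hlt
    have h1 : w ∈ nb F w0 ∩ Pos f := by
      rw [Finset.mem_inter, mem_nb, mem_Pos]; exact ⟨hw, hlt⟩
    have h0 := h.w0g
    rw [gd, Finset.card_eq_zero] at h0
    rw [h0] at h1
    simp at h1
  have hsub : nb F s ∩ nb F w0 ⊆ Cs F f s := by
    intro w hw
    rw [Finset.mem_inter, mem_nb, mem_nb] at hw
    rw [mem_Cs]
    exact ⟨hw.1, hN w hw.2⟩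
  have hcard : (Cs F f s).card = t := hs'.2
  have hpc := pair_card h.cn s w0
  have heq : nb F s ∩ nb F w0 = Cs F f s :=
    Finset.eq_of_subset_of_card_le hsub (by rw [hcard]; exact hpc)
  refine ⟨heq.symm, hcard, ?_, ?_⟩
  · rw [← heq]
    exact hclq V F t h.cn s w0 (by rw [heq]; exact hcard)
  · intro S hS
    obtain ⟨w, hw⟩ := h.cn (insert w0 S) ((Finset.card_insert_le _ _).trans hS)
    have h1 := hw w0 (Finset.mem_insert_self _ _)
    exact ⟨w, h1, hN w h1.symm, fun x hx => hw x (Finset.mem_insert_of_mem hx)⟩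

theorem hub (hcsc : T_CSC) : T_HUB := by
  intro V _ F f t lam a w0 C rep h hR ht s hs
  obtain ⟨-, hcard, -, hcn⟩ := hcsc V F f t lam a w0 h s hs
  have hCne : C.Nonempty := Finset.card_pos.1 (by rw [hR.card]; omega)
  have hmemrep : ∀ c ∈ C, ∀ w, F.Adj w (rep c) → f w ≤ 0 → w ∈ C.erase c := by
    intro c hc w hw hf
    rw [← hR.cs c hc, mem_Cs]
    exact ⟨hw.symm, hf⟩
  have hsub : Cs F f s ⊆ C := by
    by_contra hns
    set I := C ∩ Cs F f s with hI
    have hIlt : I.card < t := by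
      rw [← hcard]
      refine Finset.card_lt_card ?_
      rw [Finset.ssubset_iff_subset_ne]
      refine ⟨Finset.inter_subset_right, fun he => hns ?_⟩
      rw [← he]
      exact Finset.inter_subset_left
    obtain ⟨c0, hc0⟩ := hCne
    have hIne : I.Nonempty := by
      obtain ⟨w, hw0, hwf, hw⟩ := hcn {rep c0, s} (by
        have := Finset.card_le_two (a := rep c0) (b := s)
        omega)
      have h1 := hw (rep c0) (by simp)
      have h2 := hw s (by simp)
      refine ⟨w, ?_⟩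
      rw [hI, Finset.mem_inter, mem_Cs]
      exact ⟨Finset.mem_of_mem_erase (hmemrep c0 hc0 w h1 hwf), h2.symm, hwf⟩
    obtain ⟨c, hc⟩ := hIne
    have hcC : c ∈ C := (Finset.mem_inter.1 hc).1
    obtain ⟨w, hw0, hwf, hw⟩ := hcn (insert s (I.image rep)) (by
      have h1 := Finset.card_insert_le s (I.image rep)
      have h2 := Finset.card_image_le (s := I) (f := rep)
      omega)
    have hws : w ∈ Cs F f s := mem_Cs.2 ⟨(hw s (Finset.mem_insert_self _ _)).symm, hwf⟩
    have hr : ∀ c' ∈ I, F.Adj w (rep c') := fun c' hc' =>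
      hw _ (Finset.mem_insert_of_mem (Finset.mem_image_of_mem _ hc'))
    have hwC : w ∈ C := Finset.mem_of_mem_erase (hmemrep c hcC w (hr c hc) hwf)
    have hwI : w ∈ I := Finset.mem_inter.2 ⟨hwC, hws⟩
    have h5 := hmemrep w hwC w (hr w hwI) hwf
    simp at h5
  have hcd : (C \ Cs F f s).card = 1 := by
    rw [Finset.card_sdiff_of_subset hsub, hR.card, hcard]; omega
  obtain ⟨c, hc⟩ := Finset.card_eq_one.1 hcd
  have hcmem : c ∈ C \ Cs F f s := by rw [hc]; simp
  refine ⟨c, (Finset.mem_sdiff.1 hcmem).1, ?_⟩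
  refine Finset.eq_of_subset_of_card_le ?_ ?_
  · intro x hx
    rw [Finset.mem_erase]
    exact ⟨fun he => (Finset.mem_sdiff.1 hcmem).2 (he ▸ hx), hsub hx⟩
  · rw [Finset.card_erase_of_mem (Finset.mem_sdiff.1 hcmem).1, hR.card, hcard]; omega

theorem hig (hedg : T_EDG) (_hcsc : T_CSC) : T_HIG := by
  intro V _ F f t lam a w0 C rep h hR s hs
  obtain ⟨e1, e2, e3, e4⟩ := hedg V F f t lam a w0 h
  have hL : 0 ≤ (lam - t) * Phi f := mul_nonneg h.L0 (Phi_nonneg f)
  have hsp := (mem_S0.1 hs).1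
  have hsc : (Cs F f s).card = t := (mem_S0.1 hs).2
  by_cases hne : Cs F f s = Cs F f a
  · obtain ⟨z, hz, hza⟩ := hR.top
    have hca : Cs F f a = C.erase z := by rw [← hza]; exact hR.cs z hz
    have hcard : (C.erase z).card = t := by
      rw [Finset.card_erase_of_mem hz, hR.card]; omega
    obtain ⟨k, hk⟩ := Finset.card_pos.1 (by rw [hcard]; exact h.t1 : 0 < (C.erase z).card)
    have hkC := Finset.mem_of_mem_erase hk
    have hne2 : Cs F f s ≠ Cs F f (rep k) := by
      intro he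
      rw [hR.cs k hkC, hne, hca] at he
      rw [he] at hk
      simp at hk
    obtain ⟨u, hu0, hus, hur⟩ := key h.cn hsc (hR.e k hkC) hne2
    have h1 := e2 (rep k) u (hR.pos k hkC) hu0 hur.symm
    have h2 := e2 u s hu0 hsp hus
    have h3 := hR.high k hkC
    linarith
  · obtain ⟨u, hu0, hus, hur⟩ := key h.cn hsc (mem_S0.1 e4).2 hne
    have h1 := e3 u hur.symm hu0
    have h2 := e2 u s hu0 hsp hus
    linarith

theorem sep (hedg : T_EDG) (_hcsc : T_CSC) : T_SEP := by
  intro V _ F f t lam a w0 h hH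
  obtain ⟨e1, e2, e3, e4⟩ := hedg V F f t lam a w0 h
  have hL : 0 ≤ (lam - t) * Phi f := mul_nonneg h.L0 (Phi_nonneg f)
  have s1 : ∀ s ∈ S0 F f t, ∀ s', 0 < f s' → F.Adj s s' → s' ∈ S0 F f t := by
    intro s hs s' hs' hadj
    have hsp := (mem_S0.1 hs).1
    have h1 := hH s hs
    have h2 := e2 s s' hsp hs' hadj
    apply e1
    have h3 := h.small
    have h4 : (lam - t) * f a < 1 / 6 * f a := mul_lt_mul_of_pos_right h.L6 h.apos
    linarith
  refine ⟨s1, ?_, ?_, ?_⟩
  · intro s hs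
    have hsc : (Cs F f s).card = t := (mem_S0.1 hs).2
    obtain ⟨u, hu⟩ := h.cn (insert s (Cs F f s)) (by
      have := Finset.card_insert_le s (Cs F f s); omega)
    have hus : F.Adj u s := hu s (by simp)
    have hu0 : 0 < f u := by
      by_contra hle
      push Not at hle
      exact F.loopless.irrefl u (hu u (Finset.mem_insert_of_mem (mem_Cs.2 ⟨hus.symm, hle⟩)))
    have huS := s1 s hs u hu0 hus.symm
    refine ⟨u, huS, fun he => F.loopless.irrefl s (by rw [he] at hus; exact hus), ?_⟩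
    symm
    refine Finset.eq_of_subset_of_card_le ?_ ?_
    · intro c hc
      exact mem_Cs.2 ⟨hu c (Finset.mem_insert_of_mem hc), (mem_Cs.1 hc).2⟩
    · rw [hsc]
      exact ((mem_S0.1 huS).2).le
  · intro v hv hvC c hc
    obtain ⟨s, hs, hcs⟩ := mem_Cst.1 hc
    have hsc : (Cs F f s).card = t := (mem_S0.1 hs).2
    obtain ⟨u, hu⟩ := h.cn (insert v (insert s ((Cs F f s).erase c))) (by
      have h1 := Finset.card_insert_le v (insert s ((Cs F f s).erase c))
      have h2 := Finset.card_insert_le s ((Cs F f s).erase c)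
      have h3 := Finset.card_erase_of_mem hcs
      have h4 := h.t1
      omega)
    have huv : F.Adj u v := hu v (by simp)
    have hus : F.Adj u s := hu s (by simp)
    have hu0 : f u ≤ 0 := by
      by_contra hlt
      push Not at hlt
      have huS := s1 s hs u hlt hus.symm
      rcases lt_or_ge 0 (f v) with hv0 | hv0
      · exact hv (s1 u huS v hv0 huv)
      · exact hvC (mem_Cst.2 ⟨u, huS, mem_Cs.2 ⟨huv, hv0⟩⟩)
    have huc : u = c := by
      by_contra hne
      exact F.loopless.irrefl u (hu u (by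
        rw [Finset.mem_insert, Finset.mem_insert, Finset.mem_erase]
        exact Or.inr (Or.inr ⟨hne, mem_Cs.2 ⟨hus.symm, hu0⟩⟩)))
    rw [← huc]
    exact huv.symm
  · intro s hs v hv hadj
    refine mem_Cs.2 ⟨hadj, ?_⟩
    by_contra hlt
    push Not at hlt
    exact hv (s1 s hs v hlt hadj)

theorem cnt (hhub : T_HUB) : T_CNT := by
  intro V _ F f t lam a w0 C rep h hR htw
  have ht1 := h.t1
  set A : V → Finset V := fun c => (S0 F f t).filter (fun s => Cs F f s = C.erase c) with hA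
  have hmA : ∀ c s, s ∈ A c ↔ s ∈ S0 F f t ∧ Cs F f s = C.erase c := by
    intro c s
    simp [hA]
  have hrepS : ∀ c ∈ C, rep c ∈ S0 F f t := fun c hc => mem_S0.2 ⟨hR.pos c hc, hR.e c hc⟩
  have hA2 : ∀ c ∈ C, 2 ≤ (A c).card := by
    intro c hc
    obtain ⟨s', hs', hne, hcs⟩ := htw (rep c) (hrepS c hc)
    have h1 : rep c ∈ A c := (hmA _ _).2 ⟨hrepS c hc, hR.cs c hc⟩
    have h2 : s' ∈ A c := (hmA _ _).2 ⟨hs', hcs.trans (hR.cs c hc)⟩
    exact Finset.one_lt_card.2 ⟨s', h2, rep c, h1, hne⟩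
  have hinj : ∀ c ∈ C, ∀ c' ∈ C, C.erase c = C.erase c' → c = c' := by
    intro c hc c' hc' he
    by_contra hne
    have h1 : c ∈ C.erase c' := Finset.mem_erase.2 ⟨hne, hc⟩
    rw [← he] at h1
    simp at h1
  have hdisj : ∀ c ∈ C, ∀ c' ∈ C, c ≠ c' → Disjoint (A c) (A c') := by
    intro c hc c' hc' hne
    rw [Finset.disjoint_left]
    intro s h1 h2
    exact hne (hinj c hc c' hc' (((hmA _ _).1 h1).2.symm.trans ((hmA _ _).1 h2).2))
  have hsub : C.biUnion A ⊆ S0 F f t := by
    intro s hs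
    obtain ⟨c, -, hc⟩ := Finset.mem_biUnion.1 hs
    exact ((hmA _ _).1 hc).1
  have hcardU : ∀ D ⊆ C, (D.biUnion A).card = ∑ c ∈ D, (A c).card := by
    intro D hD
    exact Finset.card_biUnion (fun c hc c' hc' hne => hdisj c (hD hc) c' (hD hc') hne)
  have hge : ∀ D ⊆ C, 2 * D.card ≤ (D.biUnion A).card := by
    intro D hD
    rw [hcardU D hD, mul_comm, ← smul_eq_mul, ← Finset.sum_const]
    exact Finset.sum_le_sum fun c hc => hA2 c (hD hc)
  have hCst : C ⊆ Cst F f t := by
    intro c hc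
    obtain ⟨c', hc', hne⟩ := Finset.exists_mem_ne (by rw [hR.card]; omega : 1 < C.card) c
    refine mem_Cst.2 ⟨rep c', hrepS c' hc', ?_⟩
    rw [hR.cs c' hc', Finset.mem_erase]
    exact ⟨fun he => hne he.symm, hc⟩
  have hS0 : 2 * (t + 1) ≤ (S0 F f t).card := by
    have h1 := hge C (Finset.Subset.refl _)
    rw [hR.card] at h1
    exact h1.trans (Finset.card_le_card hsub)
  refine ⟨hCst, hS0, ?_, ?_⟩
  · intro c hc
    rcases Nat.lt_or_ge t 2 with ht | ht
    · obtain ⟨s, hs, hcs⟩ := mem_Cst.1 hc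
      obtain ⟨s', hs', hne, hcs'⟩ := htw s hs
      have h2 : 1 < ((S0 F f t).filter (fun s => c ∈ Cs F f s)).card := by
        refine Finset.one_lt_card.2 ⟨s', ?_, s, ?_, hne⟩
        · rw [Finset.mem_filter]
          exact ⟨hs', by rw [hcs']; exact hcs⟩
        · rw [Finset.mem_filter]
          exact ⟨hs, hcs⟩
      omega
    · have hcC : c ∈ C := by
        obtain ⟨s, hs, hcs⟩ := mem_Cst.1 hc
        obtain ⟨c', -, hc'⟩ := hhub V F f t lam a w0 C rep h hR ht s hs
        rw [hc'] at hcs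
        exact Finset.mem_of_mem_erase hcs
      have h1 := hge (C.erase c) (Finset.erase_subset _ _)
      rw [Finset.card_erase_of_mem hcC, hR.card] at h1
      have h2 : (C.erase c).biUnion A ⊆ (S0 F f t).filter (fun s => c ∈ Cs F f s) := by
        intro s hs
        obtain ⟨c', hc', hsA⟩ := Finset.mem_biUnion.1 hs
        rw [hmA] at hsA
        rw [Finset.mem_filter]
        refine ⟨hsA.1, ?_⟩
        rw [hsA.2, Finset.mem_erase]
        exact ⟨fun he => (Finset.mem_erase.1 hc').1 he.symm, hcC⟩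
      have h3 := Finset.card_le_card h2
      simp only [Nat.add_sub_cancel] at h1
      exact h1.trans h3
  · intro hcard
    have h1 := hge C (Finset.Subset.refl _)
    rw [hR.card] at h1
    have hU : C.biUnion A = S0 F f t :=
      Finset.eq_of_subset_of_card_le hsub (by rw [hcard]; exact h1)
    have hall : ∀ s ∈ S0 F f t, ∃ c ∈ C, Cs F f s = C.erase c := by
      intro s hs
      rw [← hU] at hs
      obtain ⟨c, hc, hsc⟩ := Finset.mem_biUnion.1 hs
      exact ⟨c, hc, ((hmA _ _).1 hsc).2⟩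
    refine ⟨?_, hall, ?_⟩
    · refine Finset.Subset.antisymm ?_ hCst
      intro w hw
      obtain ⟨s, hs, hws⟩ := mem_Cst.1 hw
      obtain ⟨c, -, hc⟩ := hall s hs
      rw [hc] at hws
      exact Finset.mem_of_mem_erase hws
    · have hsum : ∑ c ∈ C, 2 = ∑ c ∈ C, (A c).card := by
        rw [← hcardU C (Finset.Subset.refl _), hU, hcard, Finset.sum_const, hR.card, smul_eq_mul,
          mul_comm]
      have h2 := (Finset.sum_eq_sum_iff_of_le (fun c hc => hA2 c hc)).1 hsum
      intro c hc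
      exact (h2 c hc).symm

end Pool.Agent.H4.Lap
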